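import Pool.Agent.R612.HG.Dfn

/-!
# Models of ACFO interpret random hypergraphs of every arity

All the notions (the groups `𝕌_(p)` with their orders and the sets `𝒫^r_n`, the theories `T_{m,p}`,
the models of ACFO, random hypergraphs, interpretations) are defined in `Pool.Agent.R612.HG.Defs`.

The hypergraph lives on `(F^×) ^ 2`, with the lexicographic order. For distinct elements
`x_0 > x_1 > ... > x_n` let `h = x_{0,1} + ∑_{i ≥ 1} ∑_{j < 2} x_{i,j} x_{0,0} ^ (2 (i - 1) + j)`,
and let `R` hold if `h < e`, for a fixed `e > 1`. For different sets `{x_1, ..., x_n}` these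
polynomials in `x_0` are different, and they are irreducible (linear in `x_{0,1}`), so they are
multiplicatively independent, and the genericity axiom gives a point `x_0` at which they have
prescribed positions.
-/

set_option autoImplicit false

universe u

namespace Pool.Agent.Results.MP_224b2b_lc.RandomHypergraphs

open Pool.Agent.R612.HG

/-- Every model `(F; <, 𝒫)` of ACFO interprets a random `(n + 1)`-hypergraph, for every `n > 0`. -/
theorem result (F : Type u) [Field F] (lt : Fˣ → Fˣ → Prop) (P : (n : ℕ) → Fin n → Fˣ → Prop)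
    (h : IsACFO F lt P) (n : ℕ) (hn : 0 < n) :
    InterpretsRandomHypergraph LC F (strC lt P) n := by
  classical
  obtain ⟨e, he⟩ := h.ordFacts.noMax 1
  set D : Set (Fin 2 → F) := {x | ∀ i, x i ≠ 0} with hD
  set E : Setoid D := ⊥ with hE
  set val : Quotient E → Fin 2 → F := fun x => (Quotient.out x).1 with hval
  have hinj : Function.Injective val := fun x y hxy => Quotient.out_injective (Subtype.ext hxy)
  have hmk : ∀ x : D, val (Quotient.mk E x) = x.1 := by
    intro x
    have h1 : E (Quotient.out (Quotient.mk E x)) x := Quotient.mk_out x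
    rw [hE, Setoid.bot_def] at h1
    exact congrArg Subtype.val h1
  have hrandom := random h he val hinj (fun x i => (Quotient.out x).2 i) (fun v =>
    ⟨Quotient.mk E ⟨fun i => (v i : F), fun i => (v i).ne_zero⟩, fun i => by rw [hmk]⟩) hn
  have hDdef : ∀ {k : ℕ} (j : Fin k), DS lt P {w : Fin k × Fin 2 → F | (fun i => w (j, i)) ∈ D} :=
    fun j => DS.forall (s := fun i => {w | w (j, i) ≠ 0}) fun i =>
      (DS.eq (DF.var (j, i)) (DF.const 0)).compl
  refine ⟨2, D, E, fun x => RR lt (e : F) fun j => val (x j), ?_, ?_, ?_, hrandom⟩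
  · exact DS.forall (lt := lt) (P := P) (s := fun i => {w : Fin 2 → F | w i ≠ 0}) fun i =>
      (DS.eq (DF.var i) (DF.const 0)).compl
  · have h1 : DS lt P ({w : Fin 2 × Fin 2 → F | (fun i => w (0, i)) ∈ D} ∩
        {w | ∀ i, w ∈ {w : Fin 2 × Fin 2 → F | w (0, i) = w (1, i)}}) :=
      (hDdef 0).inter (DS.forall fun i => DS.eq (DF.var _) (DF.var _))
    have h2 : {w : Fin 2 × Fin 2 → F |
        ∃ (h₀ : (fun i => w (0, i)) ∈ D) (h₁ : (fun i => w (1, i)) ∈ D), E ⟨_, h₀⟩ ⟨_, h₁⟩} =
        {w : Fin 2 × Fin 2 → F | (fun i => w (0, i)) ∈ D} ∩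
        {w | ∀ i, w ∈ {w : Fin 2 × Fin 2 → F | w (0, i) = w (1, i)}} := by
      ext w
      constructor
      · rintro ⟨h₀, h₁, h3⟩
        rw [hE, Setoid.bot_def] at h3
        exact ⟨h₀, fun i => congrFun (congrArg Subtype.val h3) i⟩
      · rintro ⟨h₀, h3⟩
        have h4 : (fun i => w (0, i)) = fun i => w (1, i) := funext h3
        refine ⟨h₀, h4 ▸ h₀, ?_⟩
        rw [hE, Setoid.bot_def]
        exact Subtype.ext h4
    rw [h2]
    exact h1
  · have h1 : DS lt P ({w : Fin (n + 1) × Fin 2 → F | ∀ j, w ∈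
        {w : Fin (n + 1) × Fin 2 → F | (fun i => w (j, i)) ∈ D}} ∩
        {w | RR lt (e : F) fun j i => w (j, i)}) :=
      (DS.forall fun j => hDdef j).inter (DS.RR (e : F) fun j i => DF.var (j, i))
    have h2 : {w : Fin (n + 1) × Fin 2 → F | ∃ h : ∀ j, (fun i => w (j, i)) ∈ D,
        RR lt (e : F) fun j => val (Quotient.mk E ⟨_, h j⟩)} =
        {w : Fin (n + 1) × Fin 2 → F | ∀ j, w ∈
        {w : Fin (n + 1) × Fin 2 → F | (fun i => w (j, i)) ∈ D}} ∩
        {w | RR lt (e : F) fun j i => w (j, i)} := by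
      ext w
      constructor
      · rintro ⟨h₀, h3⟩
        simp only [hmk] at h3
        exact ⟨h₀, h3⟩
      · rintro ⟨h₀, h3⟩
        refine ⟨h₀, ?_⟩
        simp only [hmk]
        exact h3
    rw [h2]
    exact h1

end Pool.Agent.Results.MP_224b2b_lc.RandomHypergraphs
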